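import Mathlib

namespace Pool.Agent.H.MP_e319d1_co

variable {B : Type*}

/-- a braid move on the three letters in positions j, j+1, j+2 (counted from 0) -/
def BraidAt (M : CoxeterMatrix B) (α : List B) (j : ℕ) (β : List B) : Prop :=
  ∃ (l r : List B) (s t : B), M s t = 3 ∧ l.length = j ∧
    α = l ++ [s, t, s] ++ r ∧ β = l ++ [t, s, t] ++ r

/-- the braid class -/
def Cls (M : CoxeterMatrix B) (α : List B) : Set (List B) :=
  {β | Relation.ReflTransGen (fun a b => ∃ j, BraidAt M a j b) α β}

/-- the braid graph -/
def braidGraph (M : CoxeterMatrix B) (α : List B) : SimpleGraph (Cls M α) :=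
  SimpleGraph.fromRel fun a b => ∃ j, BraidAt M a.1 j b.1

/-- the braid shadows of the class, each recorded by its first position -/
def shadows (M : CoxeterMatrix B) (α : List B) : Set ℕ :=
  {j | ∃ β ∈ Cls M α, ∃ γ, BraidAt M β j γ}

end Pool.Agent.H.MP_e319d1_co
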