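import Pool.Agent.H.MP_e319d1_co.Tok
import Pool.Agent.H.MP_e319d1_co.Defs

namespace Pool.Agent.H.MP_e319d1_co

open CoxeterSystem

variable {B W : Type*} [Group W] {M : CoxeterMatrix B} (cs : CoxeterSystem M W)

open Classical in
noncomputable def car (M : CoxeterMatrix B) (s t : B) : ℤ :=
  if s = t then 2 else if M s t = 3 then -1 else 0

noncomputable def refl (M : CoxeterMatrix B) (s : B) : Function.End (B → ℤ) :=
  fun f u => f u - car M s u * f s

include cs in
lemma simple_inj (hsl : ∀ s t, s ≠ t → M s t = 2 ∨ M s t = 3) : Function.Injective cs.simple := by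
  have hss : ∀ s, car M s s = 2 := fun s => by simp [car]
  have hl : M.IsLiftable (refl M) := by
    intro s t
    by_cases e : s = t
    · subst e
      rw [M.diagonal, pow_one]
      funext f u
      show refl M s (refl M s f) u = f u
      simp only [refl, hss]; ring
    · rcases hsl s t e with h | h
      · have c1 : car M s t = 0 := by simp [car, e, h]
        have c2 : car M t s = 0 := by simp [car, Ne.symm e, M.symmetric t s, h]
        rw [h, pow_two]
        funext f u
        show refl M s (refl M t (refl M s (refl M t f))) u = f u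
        simp only [refl, hss, c1, c2]; ring
      · have c1 : car M s t = -1 := by simp [car, e, h]
        have c2 : car M t s = -1 := by simp [car, Ne.symm e, M.symmetric t s, h]
        rw [h, pow_three]
        funext f u
        show refl M s (refl M t (refl M s (refl M t (refl M s (refl M t f))))) u = f u
        simp only [refl, hss, c1, c2]; ring
  intro s t h
  by_contra e
  have h1 := congrArg (cs.lift ⟨refl M, hl⟩) h
  rw [cs.lift_apply_simple, cs.lift_apply_simple] at h1
  classical
  have := congrFun (congrFun h1 (Pi.single s 1)) s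
  simp [refl, hss, Pi.single_eq_of_ne (Ne.symm e)] at this

lemma lis_append (l r : List B) : cs.leftInvSeq (l ++ r) =
    cs.leftInvSeq l ++ (cs.leftInvSeq r).map fun t => cs.wordProd l * t * (cs.wordProd l)⁻¹ := by
  induction l with
  | nil => simp
  | cons i l ih =>
    simp only [List.cons_append, leftInvSeq, ih, List.map_append, List.map_map,
      wordProd_cons]
    congr 2
    apply List.map_congr_left
    intro t _
    simp [mul_assoc]

lemma lis_three (l r : List B) (a b c : B) : ∃ R, cs.leftInvSeq (l ++ [a, b, c] ++ r) =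
    cs.leftInvSeq l ++ [cs.wordProd l * cs.simple a * (cs.wordProd l)⁻¹,
      cs.wordProd l * (cs.simple a * cs.simple b * cs.simple a) * (cs.wordProd l)⁻¹,
      cs.wordProd l * (cs.simple a * cs.simple b * cs.simple c * cs.simple b * cs.simple a) *
        (cs.wordProd l)⁻¹] ++ R ∧ R = (cs.leftInvSeq r).map fun t =>
          cs.wordProd (l ++ [a, b, c]) * t * (cs.wordProd (l ++ [a, b, c]))⁻¹ := by
  refine ⟨_, ?_, rfl⟩
  rw [lis_append, lis_append]
  simp [leftInvSeq, mul_assoc]

lemma braid_rel {s t : B} (h : M s t = 3) :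
    cs.simple s * cs.simple t * cs.simple s = cs.simple t * cs.simple s * cs.simple t := by
  have h1 := cs.simple_mul_simple_pow s t
  rw [h, pow_three] at h1
  have a := cs.simple_mul_simple_self s
  have b := cs.simple_mul_simple_self t
  generalize cs.simple s = x at *
  generalize cs.simple t = y at *
  have hx : x⁻¹ = x := inv_eq_of_mul_eq_one_right a
  have hy : y⁻¹ = y := inv_eq_of_mul_eq_one_right b
  calc x * y * x = (x * y * (x * y * (x * y))) * y⁻¹ * x⁻¹ * y⁻¹ := by group
    _ = y * x * y := by rw [h1, hx, hy, one_mul]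

noncomputable def tok (ω : List B) (k : ℕ) : W := (cs.leftInvSeq ω).getD k 1

lemma getD3 {G : Type*} (L R : List G) (a b c d : G) :
    (L ++ [a, b, c] ++ R).getD L.length d = a ∧ (L ++ [a, b, c] ++ R).getD (L.length + 1) d = b ∧
      (L ++ [a, b, c] ++ R).getD (L.length + 2) d = c := by
  simp [List.getD_eq_getElem?_getD]

lemma getD3' {G : Type*} (L R : List G) (a b c a' c' d : G) (k : ℕ) (h1 : k ≠ L.length)
    (h2 : k ≠ L.length + 2) :
    (L ++ [a, b, c] ++ R).getD k d = (L ++ [a', b, c'] ++ R).getD k d := by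
  simp only [List.getD_eq_getElem?_getD, List.append_assoc]
  by_cases h : k < L.length
  · rw [List.getElem?_append_left h, List.getElem?_append_left h]
  · rw [List.getElem?_append_right (l₁ := L) (by omega),
      List.getElem?_append_right (l₁ := L) (l₂ := [a', b, c'] ++ R) (by omega)]
    obtain ⟨n, hn⟩ : ∃ n, k - L.length = n := ⟨_, rfl⟩
    rw [hn]
    match n, hn with
    | 0, hn => omega
    | 1, _ => rfl
    | 2, hn => omega
    | n + 3, _ => rfl

lemma tok3 (l r : List B) (a b c : B) :
    tok cs (l ++ [a, b, c] ++ r) l.length = cs.wordProd l * cs.simple a * (cs.wordProd l)⁻¹ ∧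
    tok cs (l ++ [a, b, c] ++ r) (l.length + 1) =
      cs.wordProd l * (cs.simple a * cs.simple b * cs.simple a) * (cs.wordProd l)⁻¹ ∧
    tok cs (l ++ [a, b, c] ++ r) (l.length + 2) =
      cs.wordProd l * (cs.simple a * cs.simple b * cs.simple c * cs.simple b * cs.simple a) *
        (cs.wordProd l)⁻¹ := by
  obtain ⟨R, hR, -⟩ := lis_three cs l r a b c
  unfold tok
  rw [hR, ← cs.length_leftInvSeq l]
  exact getD3 _ _ _ _ _ _

lemma BraidAt.symm {α β : List B} {j : ℕ} (h : BraidAt M α j β) : BraidAt M β j α := by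
  obtain ⟨l, r, s, t, h1, h2, h3, h4⟩ := h
  exact ⟨l, r, t, s, by rw [M.symmetric, h1], h2, h4, h3⟩

lemma BraidAt.ne {α β : List B} {j : ℕ} (h : BraidAt M α j β) : α ≠ β := by
  obtain ⟨l, r, s, t, h1, h2, rfl, rfl⟩ := h
  intro e
  have : s = t := by simpa using (by simpa using e : s = t ∧ t = s ∧ s = t).1
  subst this
  rw [M.diagonal] at h1
  omega

lemma BraidAt.len {α β : List B} {j : ℕ} (h : BraidAt M α j β) :
    β.length = α.length ∧ j + 2 < α.length := by
  obtain ⟨l, r, s, t, h1, h2, rfl, rfl⟩ := h
  simp; omega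

lemma BraidAt.prod {α β : List B} {j : ℕ} (h : BraidAt M α j β) :
    cs.wordProd β = cs.wordProd α := by
  obtain ⟨l, r, s, t, h1, h2, rfl, rfl⟩ := h
  have := braid_rel cs h1
  simp only [wordProd_append, wordProd_cons, wordProd_nil, mul_one]
  rw [← mul_assoc (cs.simple t), ← mul_assoc (cs.simple s), this]

lemma cls_red {α β : List B} (hα : cs.IsReduced α) (h : β ∈ Cls M α) :
    cs.IsReduced β ∧ β.length = α.length := by
  induction h with
  | refl => exact ⟨hα, rfl⟩
  | tail _ h ih =>
    obtain ⟨j, h⟩ := h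
    refine ⟨?_, h.len.1.trans ih.2⟩
    unfold CoxeterSystem.IsReduced
    rw [h.prod cs, h.len.1]
    exact ih.1

lemma BraidAt.tok {α β : List B} {j : ℕ} (h : BraidAt M α j β) :
    (tok cs β j = tok cs α (j + 2) ∧ tok cs β (j + 2) = tok cs α j ∧
      ∀ k, k ≠ j → k ≠ j + 2 → tok cs β k = tok cs α k) ∧
    tok cs α (j + 2) = tok cs α (j + 1) * tok cs α j * tok cs α (j + 1) ∧
    tok cs α j * tok cs α (j + 1) * tok cs α j =
      tok cs α (j + 1) * tok cs α j * tok cs α (j + 1) := by
  obtain ⟨l, r, s, t, h1, rfl, rfl, rfl⟩ := h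
  obtain ⟨a1, a2, a3⟩ := tok3 cs l r s t s
  obtain ⟨b1, b2, b3⟩ := tok3 cs l r t s t
  have br := braid_rel cs h1
  have a := cs.simple_mul_simple_self s
  have b := cs.simple_mul_simple_self t
  have e1 : cs.simple s * cs.simple t * cs.simple s * cs.simple t * cs.simple s = cs.simple t := by
    rw [br]
    calc _ = cs.simple t * cs.simple s * (cs.simple t * cs.simple t) * cs.simple s := by group
      _ = cs.simple t * (cs.simple s * cs.simple s) := by rw [b]; group
      _ = _ := by rw [a, mul_one]
  have e2 : cs.simple t * cs.simple s * cs.simple t * cs.simple s * cs.simple t = cs.simple s := by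
    rw [← br]
    calc _ = cs.simple s * cs.simple t * (cs.simple s * cs.simple s) * cs.simple t := by group
      _ = cs.simple s * (cs.simple t * cs.simple t) := by rw [a]; group
      _ = _ := by rw [b, mul_one]
  refine ⟨⟨by rw [b1, a3, e1], by rw [b3, a1, e2], fun k h1 h2 => ?_⟩, ?_, ?_⟩
  · obtain ⟨R, hR, hR'⟩ := lis_three cs l r s t s
    obtain ⟨R2, hR2, hR2'⟩ := lis_three cs l r t s t
    have : R2 = R := by
      rw [hR', hR2']
      have : cs.wordProd (l ++ [t, s, t]) = cs.wordProd (l ++ [s, t, s]) := by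
        simp only [wordProd_append, wordProd_cons, wordProd_nil, mul_one]
        rw [← mul_assoc (cs.simple t), ← mul_assoc (cs.simple s), br]
      rw [this]
    unfold Pool.Agent.H.MP_e319d1_co.tok
    rw [hR, hR2, this, br]
    exact getD3' _ _ _ _ _ _ _ _ _ (by simpa using h1) (by simpa using h2)
  · rw [a1, a2, a3]
    generalize cs.simple s = x at *
    generalize cs.simple t = y at *
    calc _ = cs.wordProd l * (x * y * (x * x) * x * y * x) * (cs.wordProd l)⁻¹ := by
          rw [a]; group
      _ = _ := by group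
  · rw [a1, a2]
    generalize cs.simple s = x at *
    generalize cs.simple t = y at *
    calc _ = cs.wordProd l * ((x * x) * y * (x * x)) * (cs.wordProd l)⁻¹ := by group
      _ = cs.wordProd l * (x * y * x * y * x) * (cs.wordProd l)⁻¹ := by rw [a, e1]; group
      _ = cs.wordProd l * (x * y * (x * x) * x * y * x) * (cs.wordProd l)⁻¹ := by
          rw [a]; group
      _ = _ := by group

lemma tok_inj {ω : List B} (h : cs.IsReduced ω) {k k' : ℕ} (hk : k < ω.length)
    (hk' : k' < ω.length) (e : tok cs ω k = tok cs ω k') : k = k' := by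
  have hn := h.nodup_leftInvSeq
  unfold tok at e
  rw [List.getD_eq_getElem _ _ (by simpa using hk), List.getD_eq_getElem _ _ (by simpa using hk')]
    at e
  exact (List.Nodup.getElem_inj_iff hn).1 e

lemma decomp (ω : List B) (j : ℕ) (h : j + 2 < ω.length) :
    ∃ l r a b c, l.length = j ∧ ω = l ++ [a, b, c] ++ r := by
  refine ⟨ω.take j, ω.drop (j + 3), ω[j], ω[j + 1], ω[j + 2], by simp; omega, ?_⟩
  conv_lhs => rw [← List.take_append_drop j ω]
  rw [List.append_assoc, List.drop_eq_getElem_cons (by omega : j < ω.length),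
    List.drop_eq_getElem_cons (by omega : j + 1 < ω.length),
    List.drop_eq_getElem_cons (by omega : j + 1 + 1 < ω.length)]
  rfl

lemma act (hsl : ∀ s t, s ≠ t → M s t = 2 ∨ M s t = 3) {ω : List B} (hω : cs.IsReduced ω) (j : ℕ)
    (h : j + 2 < ω.length) (e : tok cs ω (j + 2) = tok cs ω (j + 1) * tok cs ω j * tok cs ω (j + 1)) :
    ∃ β, BraidAt M ω j β := by
  obtain ⟨l, r, a, b, c, rfl, rfl⟩ := decomp ω j h
  obtain ⟨a1, a2, a3⟩ := tok3 cs l r a b c
  have ha := cs.simple_mul_simple_self a
  have hca : c = a := by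
    apply simple_inj cs hsl
    rw [a1, a2, a3] at e
    generalize cs.simple a = x at *
    generalize cs.simple b = y at *
    generalize cs.simple c = z at *
    calc z = y⁻¹ * x⁻¹ * (cs.wordProd l)⁻¹ * (cs.wordProd l * (x * y * z * y * x) *
          (cs.wordProd l)⁻¹) * cs.wordProd l * x⁻¹ * y⁻¹ := by group
      _ = (x * x) * x := by rw [e]; group
      _ = x := by rw [ha, one_mul]
  subst hca
  have hne : c ≠ b := by
    rintro rfl
    have : l.length = l.length + 1 := by
      apply tok_inj cs hω (by omega) (by omega)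
      rw [a1, a2, ha, one_mul]
    omega
  rcases hsl c b hne with h2 | h3
  · exfalso
    have h1 := cs.simple_mul_simple_pow c b
    rw [h2, pow_two] at h1
    have : l.length = l.length + 2 := by
      apply tok_inj cs hω (by omega) (by omega)
      rw [← mul_assoc] at h1
      rw [a1, a3, h1, one_mul]
    omega
  · exact ⟨_, l, r, c, b, h3, rfl, rfl, rfl⟩

lemma lis_inj (hsl : ∀ s t, s ≠ t → M s t = 2 ∨ M s t = 3) :
    ∀ ω ω' : List B, cs.leftInvSeq ω = cs.leftInvSeq ω' → ω = ω' := by
  intro ω
  induction ω with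
  | nil =>
    intro ω' h
    have := congrArg List.length h
    simp at this
    exact (List.length_eq_zero_iff.1 this.symm).symm
  | cons i ω ih =>
    intro ω' h
    cases ω' with
    | nil => have := congrArg List.length h; simp at this
    | cons i' ω' =>
      simp only [leftInvSeq, List.cons.injEq] at h
      have e := simple_inj cs hsl h.1
      subst e
      rw [ih ω' (List.map_injective_iff.2 (MulAut.conj (cs.simple i)).injective h.2)]

lemma adj_iff (α : List B) (x y : Cls M α) :
    (braidGraph M α).Adj x y ↔ ∃ j, BraidAt M x.1 j y.1 := by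
  unfold braidGraph
  rw [SimpleGraph.fromRel_adj]
  constructor
  · rintro ⟨-, ⟨j, h⟩ | ⟨j, h⟩⟩
    · exact ⟨j, h⟩
    · exact ⟨j, h.symm⟩
  · rintro ⟨j, h⟩
    exact ⟨fun e => h.ne (congrArg Subtype.val e), Or.inl ⟨j, h⟩⟩

lemma conn (α : List B) : (braidGraph M α).Connected := by
  have key : ∀ β (h : β ∈ Cls M α),
      (braidGraph M α).Reachable ⟨α, Relation.ReflTransGen.refl⟩ ⟨β, h⟩ := by
    intro β h
    induction h with
    | refl => rfl
    | tail h1 h2 ih => exact ih.trans ((adj_iff α ⟨_, h1⟩ ⟨_, h1.tail h2⟩).2 h2).reachable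
  have : Nonempty (Cls M α) := ⟨⟨α, Relation.ReflTransGen.refl⟩⟩
  exact ⟨fun x y => (key x.1 x.2).symm.trans (key y.1 y.2)⟩

noncomputable def toTok (hsl : ∀ s t, s ≠ t → M s t = 2 ∨ M s t = 3) {α : List B}
    (hα : cs.IsReduced α) : Tok (Cls M α) W where
  G := braidGraph M α
  m := α.length
  T := fun x => tok cs x.1
  St := fun x j y => BraidAt M x.1 j y.1
  adj := adj_iff α
  symm := fun _ _ _ h => h.symm
  conn := conn α
  lt := fun x _ _ h => (cls_red cs hα x.2).2 ▸ h.len.2
  sw := fun _ _ _ h => (h.tok cs).1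
  rel := fun _ _ _ h => (h.tok cs).2
  invol := fun x k => cs.getD_leftInvSeq_mul_self x.1 k
  act := by
    intro x j h e
    obtain ⟨h1, h2⟩ := cls_red cs hα x.2
    obtain ⟨β, hβ⟩ := act cs hsl h1 j (h2 ▸ h) e
    exact ⟨⟨β, Relation.ReflTransGen.tail x.2 ⟨j, hβ⟩⟩, hβ⟩
  injT := by
    intro x k k' h1 h2 e
    obtain ⟨a, b⟩ := cls_red cs hα x.2
    exact tok_inj cs a (b ▸ h1) (b ▸ h2) e
  extT := by
    intro x y h
    apply Subtype.ext
    apply lis_inj cs hsl
    have h1 := (cls_red cs hα x.2).2
    have h2 := (cls_red cs hα y.2).2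
    apply List.ext_getElem (by simp [h1, h2])
    intro k a b
    have := h k (by simpa [h1] using a)
    unfold tok at this
    rwa [List.getD_eq_getElem _ _ a, List.getD_eq_getElem _ _ b] at this

end Pool.Agent.H.MP_e319d1_co
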