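import Pool.Agent.H.MP_e319d1_co.Sys

namespace Pool.Agent.H.MP_e319d1_co.Sys
variable {V ι : Type*} (S : Sys V ι)

theorem lam (hq : ∀ x j y x' y' p, S.St x j y → S.St x' j y' → S.P x p = j →
      S.P x' p = j ∨ S.P x' p = j + 2)
    (hna : ∀ x j y x' y', S.St x j y → S.St x' (j + 1) y' → False)
    (U : Finset ℕ) (hU : ∀ j, j ∈ U ↔ ∃ x y, S.St x j y) :
    ∃ σ : V → ℕ → Bool, (∀ x y, S.G.dist x y = (U.filter fun j => σ x j ≠ σ y j).card) ∧
      ∃ u v, ∀ j ∈ U, σ u j ≠ σ v j := by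
  classical
  obtain ⟨x0⟩ := S.conn.nonempty
  have hch : ∀ j, j ∈ U → ∃ p, ∃ x y, S.St x j y ∧ S.P x p = j := by
    intro j hj
    obtain ⟨x, y, h⟩ := (hU j).1 hj
    obtain ⟨p, q, h1, -⟩ := S.step _ _ _ h
    exact ⟨p, x, y, h, h1⟩
  choose pp hpp using hch
  let σ : V → ℕ → Bool := fun z j => if h : j ∈ U then decide (S.P z (pp j h) ≤ j) else true
  have hσ : ∀ z w j (h : j ∈ U), σ z j = σ w j ↔ (S.P z (pp j h) ≤ j ↔ S.P w (pp j h) ≤ j) := by
    intro z w j h
    simp [σ, h]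
  have s1 : ∀ a j b, S.St a j b → σ a j ≠ σ b j := by
    intro a j b h
    have hj : j ∈ U := (hU j).2 ⟨a, b, h⟩
    obtain ⟨x, y, hx, hp⟩ := hpp j hj
    rw [Ne, hσ _ _ _ hj]
    obtain ⟨p, q, h1, h2, h3, h4, -⟩ := S.step _ _ _ h
    rcases hq _ _ _ _ _ _ hx h hp with e | e
    · have : pp j hj = p := S.inj a (e.trans h1.symm)
      rw [this]; omega
    · have : pp j hj = q := S.inj a (e.trans h2.symm)
      rw [this]; omega
  have s2 : ∀ a i b j, S.St a i b → j ∈ U → i ≠ j → σ a j = σ b j := by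
    intro a i b j h hj hij
    obtain ⟨x, y, hx, hp⟩ := hpp j hj
    rw [hσ _ _ _ hj]
    obtain ⟨p, q, h1, h2, h3, h4, h5⟩ := S.step _ _ _ h
    have := S.parity x a (pp j hj)
    by_cases e1 : pp j hj = p
    · rw [e1] at this hp ⊢; omega
    by_cases e2 : pp j hj = q
    · rw [e2] at this hp ⊢; omega
    rw [h5 _ e1 e2]
  have tw : ∀ x y, x ≠ y → ∃ j x', S.St x j x' ∧ σ x j ≠ σ y j := by
    intro x y hxy
    obtain ⟨j, x', p, q, h, h1, h2, h3, h4⟩ := S.toward hxy
    refine ⟨j, x', h, ?_⟩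
    have hj : j ∈ U := (hU j).2 ⟨x, x', h⟩
    obtain ⟨a, b, ha, hp⟩ := hpp j hj
    rw [Ne, hσ _ _ _ hj]
    rcases hq _ _ _ _ _ _ ha h hp with e | e
    · have : pp j hj = p := S.inj x (e.trans h1.symm)
      rw [this]; omega
    · have : pp j hj = q := S.inj x (e.trans h2.symm)
      rw [this]; omega
  have hcl : ∀ x j x' y, S.St x j x' → σ x j ≠ σ y j →
      (U.filter fun i => σ x' i ≠ σ y i).card + 1 = (U.filter fun i => σ x i ≠ σ y i).card := by
    intro x j x' y h hne
    have hj : j ∈ U := (hU j).2 ⟨x, x', h⟩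
    have : (U.filter fun i => σ x' i ≠ σ y i) = (U.filter fun i => σ x i ≠ σ y i).erase j := by
      ext i
      simp only [Finset.mem_filter, Finset.mem_erase]
      by_cases e : i = j
      · subst e
        have := s1 _ _ _ h
        revert this hne
        cases σ x i <;> cases σ x' i <;> cases σ y i <;> simp
      · constructor
        · rintro ⟨a, b⟩
          exact ⟨e, a, by rw [s2 _ _ _ _ h a (Ne.symm e)]; exact b⟩
        · rintro ⟨-, a, b⟩
          exact ⟨a, by rw [← s2 _ _ _ _ h a (Ne.symm e)]; exact b⟩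
    rw [this]
    exact Finset.card_erase_add_one (Finset.mem_filter.2 ⟨hj, hne⟩)
  have hdist : ∀ x y, S.G.dist x y = (U.filter fun j => σ x j ≠ σ y j).card := by
    intro x y
    have := dist_eq_of S.conn (fun x => (U.filter fun j => σ x j ≠ σ y j).card) y 1 one_pos
      (by simp) ?_ ?_ x
    · rw [← this, one_mul]
    · intro a b hab
      obtain ⟨j, h⟩ := (S.adj _ _).1 hab
      by_cases e : σ a j = σ y j
      · have := hcl b j a y (S.symm _ _ _ h) (by rw [← e]; exact (s1 _ _ _ h).symm)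
        omega
      · have := hcl a j b y h e
        omega
    · intro x hx
      obtain ⟨j, x', h, hne⟩ := tw x y hx
      exact ⟨x', (S.adj _ _).2 ⟨j, h⟩, hcl _ _ _ _ h hne⟩
  have hyb : ∀ j ∈ U, ∀ n x u, S.G.dist x u = n → σ x j = σ u j →
      ∃ z, (∀ a k, k ≤ j → (S.P z a = k ↔ S.P x a = k)) ∧
        (∀ a k, j + 2 ≤ k → (S.P z a = k ↔ S.P u a = k)) := by
    intro j hj n
    obtain ⟨xj, yj, hxj⟩ := (hU j).1 hj
    induction n using Nat.strong_induction_on with
    | _ n ih =>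
      intro x u hn he
      by_cases hxu : x = u
      · subst hxu; exact ⟨x, fun _ _ _ => Iff.rfl, fun _ _ _ => Iff.rfl⟩
      obtain ⟨i, x', h, hne⟩ := tw x u hxu
      have hij : i ≠ j := by rintro rfl; exact hne he
      have hlt := hcl _ _ _ _ h hne
      rw [← hdist, ← hdist] at hlt
      obtain ⟨z', z1, z2⟩ := ih (S.G.dist x' u) (by omega) x' u rfl
        (by rw [← s2 _ _ _ _ h hj hij]; exact he)
      have n1 : i ≠ j + 1 := by rintro rfl; exact hna _ _ _ _ _ hxj h
      have n2 : j ≠ i + 1 := by rintro rfl; exact hna _ _ _ _ _ h hxj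
      obtain ⟨p, q, h1, h2, h3, h4, h5⟩ := S.step _ _ _ h
      by_cases hlt' : j < i
      · refine ⟨z', fun a k hk => ?_, z2⟩
        rw [z1 a k hk]
        by_cases e1 : a = p
        · subst e1; omega
        by_cases e2 : a = q
        · subst e2; omega
        rw [h5 a e1 e2]
      · have a1 : S.P z' q = i := (z1 q i (by omega)).2 h4
        have a2 : S.P z' p = i + 2 := (z1 p (i + 2) (by omega)).2 h3
        obtain ⟨z, hz⟩ := S.K _ _ _ _ _ _ (S.symm _ _ _ h) h4 h3 a1 a2
        obtain ⟨k1, k2, k3⟩ := S.step' hz a1 a2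
        refine ⟨z, fun a k hk => ?_, fun a k hk => ?_⟩
        · by_cases e1 : a = p
          · subst e1; omega
          by_cases e2 : a = q
          · subst e2; omega
          rw [k3 a e2 e1, z1 a k hk, h5 a e1 e2]
        · rw [← z2 a k hk]
          by_cases e1 : a = p
          · subst e1; omega
          by_cases e2 : a = q
          · subst e2; omega
          rw [k3 a e2 e1]
  have hyb' : ∀ j ∈ U, ∀ x u, σ x j = σ u j →
      ∃ z, (∀ i ∈ U, i ≤ j → σ z i = σ x i) ∧ (∀ i ∈ U, j < i → σ z i = σ u i) := by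
    intro j hj x u he
    obtain ⟨z, z1, z2⟩ := hyb j hj _ x u rfl he
    refine ⟨z, fun i hi hij => ?_, fun i hi hij => ?_⟩
    · rw [hσ _ _ _ hi]
      have a := z1 (pp i hi) (S.P z (pp i hi))
      have b := z1 (pp i hi) (S.P x (pp i hi))
      omega
    · rw [hσ _ _ _ hi]
      obtain ⟨xj, yj, hxj⟩ := (hU j).1 hj
      obtain ⟨xi, yi, hxi⟩ := (hU i).1 hi
      have n1 : i ≠ j + 1 := by rintro rfl; exact hna _ _ _ _ _ hxj hxi
      have a := z2 (pp i hi) (S.P z (pp i hi))
      have b := z2 (pp i hi) (S.P u (pp i hi))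
      omega
  have two : ∀ j ∈ U, ∀ i ∈ U, i ≠ j → ∀ s : Bool,
      ∃ e f, σ e j = s ∧ σ e j ≠ σ f j ∧ σ e i ≠ σ f i := by
    intro j hj i hi hij
    obtain ⟨a, b, hab⟩ := (hU j).1 hj
    obtain ⟨c, d, hcd⟩ := (hU i).1 hi
    have t1 := s1 _ _ _ hab
    have t2 := s1 _ _ _ hcd
    have t3 := s2 _ _ _ _ hab hi hij.symm
    have t4 := s2 _ _ _ _ hcd hj hij
    have : ∃ e f, σ e j ≠ σ f j ∧ σ e i ≠ σ f i := by
      by_cases u1 : σ c i = σ a i <;> by_cases u2 : σ c j = σ a j
      · exact ⟨d, b, by rw [← t4, u2]; exact t1, by rw [← t3, ← u1]; exact t2.symm⟩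
      · exact ⟨d, a, by rw [← t4]; exact u2, by rw [← u1]; exact t2.symm⟩
      · exact ⟨c, b, by rw [u2]; exact t1, by rw [← t3]; exact u1⟩
      · exact ⟨c, a, u2, u1⟩
    obtain ⟨e, f, h1, h2⟩ := this
    intro s
    by_cases u : σ e j = s
    · exact ⟨e, f, u, h1, h2⟩
    · refine ⟨f, e, ?_, h1.symm, h2.symm⟩
      revert h1 u
      cases σ e j <;> cases σ f j <;> cases s <;> simp
  have anti : ∀ N, ∃ u v, ∀ j ∈ U, j < N → σ u j ≠ σ v j := by
    intro N
    induction N with
    | zero => exact ⟨x0, x0, fun j _ h => absurd h (by omega)⟩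
    | succ N ih =>
      obtain ⟨u, v, huv⟩ := ih
      by_cases hN : N ∈ U
      swap
      · refine ⟨u, v, fun j hj hl => huv j hj ?_⟩
        have : j ≠ N := by rintro rfl; exact hN hj
        omega
      by_cases hne : (U.filter (· < N)).Nonempty
      swap
      · obtain ⟨a, b, hab⟩ := (hU N).1 hN
        refine ⟨a, b, fun j hj hl => ?_⟩
        have : j = N := by
          by_contra hc
          exact hne ⟨j, Finset.mem_filter.2 ⟨hj, by omega⟩⟩
        subst this
        exact s1 _ _ _ hab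
      obtain ⟨j, hj, hmax⟩ := Finset.exists_max_image _ id hne
      obtain ⟨hjU, hjN⟩ := Finset.mem_filter.1 hj
      obtain ⟨e, f, e1, e2, e3⟩ := two j hjU N hN (by omega) (σ u j)
      have e4 : σ v j = σ f j := by
        have := huv j hjU hjN
        revert this e1 e2
        cases σ e j <;> cases σ f j <;> cases σ u j <;> cases σ v j <;> simp
      obtain ⟨u', a1, a2⟩ := hyb' j hjU u e e1.symm
      obtain ⟨v', b1, b2⟩ := hyb' j hjU v f e4
      refine ⟨u', v', fun i hi hl => ?_⟩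
      by_cases hiN : i = N
      · subst hiN
        rw [a2 i hi hjN, b2 i hi hjN]; exact e3
      · have : i ≤ j := hmax i (Finset.mem_filter.2 ⟨hi, by omega⟩)
        rw [a1 i hi this, b1 i hi this]
        exact huv i hi (by omega)
  obtain ⟨u, v, h⟩ := anti (U.sup id + 1)
  refine ⟨σ, hdist, u, v, fun j hj => h j hj ?_⟩
  have : id j ≤ U.sup id := Finset.le_sup hj
  simp only [id] at this
  omega

end Pool.Agent.H.MP_e319d1_co.Sys
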