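import Mathlib

namespace Pool.Agent.H.MP_e319d1_co

structure Sys (V ι : Type*) where
  G : SimpleGraph V
  P : V → ι → ℕ
  St : V → ℕ → V → Prop
  adj : ∀ x y, G.Adj x y ↔ ∃ j, St x j y
  inj : ∀ x, Function.Injective (P x)
  ext : ∀ x y, P x = P y → x = y
  step : ∀ x j y, St x j y → ∃ p q, P x p = j ∧ P x q = j + 2 ∧ P y p = j + 2 ∧ P y q = j ∧
    ∀ a, a ≠ p → a ≠ q → P y a = P x a
  symm : ∀ x j y, St x j y → St y j x
  conn : G.Connected
  K : ∀ x j y z p q, St x j y → P x p = j → P x q = j + 2 → P z p = j → P z q = j + 2 →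
    ∃ z', St z j z'
  F : ∀ x j y x' y' p q q', St x j y → St x' j y' → P x p = j → P x q = j + 2 → P x' p = j →
    P x' q' = j + 2 → q = q'

def med (a b c : ℕ) : ℕ := max (min a b) (min (max a b) c)

lemma dist_eq_of {V : Type*} {G : SimpleGraph V} (hG : G.Connected) (h : V → ℕ) (y : V) (c : ℕ)
    (hc : 0 < c) (h0 : h y = 0) (h1 : ∀ a b, G.Adj a b → h a ≤ h b + c)
    (h2 : ∀ x, x ≠ y → ∃ x', G.Adj x x' ∧ h x' + c = h x) (x : V) : c * G.dist x y = h x := by
  apply le_antisymm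
  · induction hn : h x using Nat.strong_induction_on generalizing x with
    | _ n ih =>
      by_cases hxy : x = y
      · subst hxy; simp
      · obtain ⟨x', ha, he⟩ := h2 x hxy
        have := ih (h x') (by omega) x' rfl
        have h3 : G.dist x y ≤ G.dist x x' + G.dist x' y := hG.dist_triangle
        rw [SimpleGraph.dist_eq_one_iff_adj.2 ha] at h3
        have := Nat.mul_le_mul_left c h3
        rw [mul_add] at this
        omega
  · obtain ⟨w, hw⟩ := hG.exists_walk_length_eq_dist x y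
    rw [← hw]
    clear hw h2
    induction w with
    | nil => simp [h0]
    | cons ha w ih =>
      have := ih h0
      have := h1 _ _ ha
      rw [SimpleGraph.Walk.length_cons, mul_add]
      omega

lemma iso_dist {V W : Type*} {G : SimpleGraph V} {H : SimpleGraph W} (φ : G ≃g H)
    (hG : G.Connected) (u v : V) : H.dist (φ u) (φ v) = G.dist u v := by
  apply le_antisymm
  · obtain ⟨w, hw⟩ := hG.exists_walk_length_eq_dist u v
    have := SimpleGraph.dist_le (w.map φ.toHom)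
    rw [SimpleGraph.Walk.length_map, hw] at this
    exact this
  · obtain ⟨w, hw⟩ := (φ.connected_iff.1 hG).exists_walk_length_eq_dist (φ u) (φ v)
    have := SimpleGraph.dist_le (w.map φ.symm.toHom)
    rw [SimpleGraph.Walk.length_map, hw] at this
    simpa using this

lemma box_dist {A B : Type*} {G : SimpleGraph A} {H : SimpleGraph B} (h : (G □ H).Connected)
    (x y : A × B) : (G □ H).dist x y = G.dist x.1 y.1 + H.dist x.2 y.2 := by
  obtain ⟨h1, h2⟩ := SimpleGraph.connected_boxProd.1 h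
  have := SimpleGraph.edist_boxProd (G := G) (H := H) x y
  rw [← (h.preconnected x y).coe_dist_eq_edist, ← (h1.preconnected _ _).coe_dist_eq_edist,
    ← (h2.preconnected _ _).coe_dist_eq_edist] at this
  exact_mod_cast this

namespace Sys
variable {V ι : Type*} (S : Sys V ι)

lemma ind (Q : V → Prop) (x : V) (hx : Q x) (hs : ∀ a j b, S.St a j b → Q a → Q b) (z : V) :
    Q z := by
  have := (SimpleGraph.reachable_iff_reflTransGen x z).1 (S.conn.preconnected x z)
  induction this with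
  | refl => exact hx
  | tail _ h ih =>
    obtain ⟨j, hj⟩ := (S.adj _ _).1 h
    exact hs _ j _ hj ih

lemma step' {x y : V} {j : ℕ} {p q : ι} (h : S.St x j y) (hp : S.P x p = j)
    (hq : S.P x q = j + 2) :
    S.P y p = j + 2 ∧ S.P y q = j ∧ ∀ a, a ≠ p → a ≠ q → S.P y a = S.P x a := by
  obtain ⟨p', q', h1, h2, h3, h4, h5⟩ := S.step x j y h
  have e1 : p = p' := S.inj x (hp.trans h1.symm)
  have e2 : q = q' := S.inj x (hq.trans h2.symm)
  subst e1 e2
  exact ⟨h3, h4, h5⟩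

lemma parity (x z : V) (a : ι) : S.P z a % 2 = S.P x a % 2 := by
  refine S.ind (fun z => S.P z a % 2 = S.P x a % 2) x rfl ?_ z
  intro u j v h ih
  obtain ⟨p, q, h1, h2, h3, h4, h5⟩ := S.step u j v h
  by_cases hp : a = p
  · subst hp; omega
  by_cases hq : a = q
  · subst hq; omega
  rw [h5 a hp hq]; exact ih

lemma side {x y : V} {j : ℕ} {p q : ι} (h : S.St x j y) (hp : S.P x p = j)
    (hq : S.P x q = j + 2) (z : V) :
    (S.P z p ≤ j ∧ j + 2 ≤ S.P z q) ∨ (j + 2 ≤ S.P z p ∧ S.P z q ≤ j) := by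
  refine S.ind (fun z => (S.P z p ≤ j ∧ j + 2 ≤ S.P z q) ∨ (j + 2 ≤ S.P z p ∧ S.P z q ≤ j)) x
    (by omega) ?_ z
  intro u i v hs ih
  obtain ⟨p', q', h1, h2, h3, h4, h5⟩ := S.step u i v hs
  obtain ⟨k1, k2, -⟩ := S.step' h hp hq
  have pp := S.parity x u p
  have pq := S.parity x u q
  have hpq : p ≠ q := by rintro rfl; omega
  by_cases hij : i = j
  · subst hij
    by_cases e1 : p = p'
    · subst e1
      have := S.F _ _ _ _ _ _ _ _ h hs hp hq h1 h2
      subst this; omega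
    by_cases e2 : p = q'
    · subst e2
      have := S.F _ _ _ _ _ _ _ _ h (S.symm _ _ _ hs) hp hq h4 h3
      subst this; omega
    by_cases e3 : q = p'
    · subst e3
      exact absurd (S.F _ _ _ _ _ _ _ _ (S.symm _ _ _ h) hs k2 k1 h1 h2) e2
    by_cases e4 : q = q'
    · subst e4
      exact absurd (S.F _ _ _ _ _ _ _ _ (S.symm _ _ _ h) (S.symm _ _ _ hs) k2 k1 h4 h3) e1
    rw [h5 p e1 e2, h5 q e3 e4]; exact ih
  · have a1 : S.P v p = S.P u p ∨ (S.P u p = i ∧ S.P v p = i + 2) ∨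
        (S.P u p = i + 2 ∧ S.P v p = i) := by
      by_cases e1 : p = p'
      · subst e1; omega
      by_cases e2 : p = q'
      · subst e2; omega
      exact Or.inl (h5 p e1 e2)
    have a2 : S.P v q = S.P u q ∨ (S.P u q = i ∧ S.P v q = i + 2) ∨
        (S.P u q = i + 2 ∧ S.P v q = i) := by
      by_cases e1 : q = p'
      · subst e1; omega
      by_cases e2 : q = q'
      · subst e2; omega
      exact Or.inl (h5 q e1 e2)
    omega

lemma medstep {x x' z a c : V} {j : ℕ} (h : S.St x j x')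
    (hz : ∀ t, S.P z t = med (S.P a t) (S.P x t) (S.P c t)) :
    ∃ z', (z' = z ∨ S.St z j z') ∧ ∀ t, S.P z' t = med (S.P a t) (S.P x' t) (S.P c t) := by
  obtain ⟨p, q, h1, h2, h3, h4, h5⟩ := S.step x j x' h
  have sa := S.side h h1 h2 a
  have sc := S.side h h1 h2 c
  have zp := hz p
  have zq := hz q
  by_cases hs : (S.P a p ≤ j ↔ S.P c p ≤ j)
  · refine ⟨z, Or.inl rfl, fun t => ?_⟩
    by_cases e1 : t = p
    · subst e1; rw [zp, h1, h3]; unfold med; omega
    by_cases e2 : t = q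
    · subst e2; rw [zq, h2, h4]; unfold med; omega
    rw [h5 t e1 e2, hz]
  · have z1 : S.P z p = j := by rw [zp, h1]; unfold med; omega
    have z2 : S.P z q = j + 2 := by rw [zq, h2]; unfold med; omega
    obtain ⟨z', hz'⟩ := S.K _ _ _ _ _ _ h h1 h2 z1 z2
    obtain ⟨k1, k2, k3⟩ := S.step' hz' z1 z2
    refine ⟨z', Or.inr hz', fun t => ?_⟩
    by_cases e1 : t = p
    · subst e1; rw [k1, h3]; unfold med; omega
    by_cases e2 : t = q
    · subst e2; rw [k2, h4]; unfold med; omega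
    rw [h5 t e1 e2, k3 t e1 e2, hz]

lemma exists_med (a x c : V) : ∃ z, ∀ t, S.P z t = med (S.P a t) (S.P x t) (S.P c t) := by
  refine S.ind (fun x => ∃ z, ∀ t, S.P z t = med (S.P a t) (S.P x t) (S.P c t)) a
    ⟨a, fun t => by unfold med; omega⟩ ?_ x
  rintro u j v h ⟨z, hz⟩
  obtain ⟨z', -, hz'⟩ := S.medstep h hz
  exact ⟨z', hz'⟩

lemma toward {x y : V} (hxy : x ≠ y) : ∃ j x' p q, S.St x j x' ∧ S.P x p = j ∧
    S.P x q = j + 2 ∧ j + 2 ≤ S.P y p ∧ S.P y q ≤ j := by
  have := S.ind (fun w => (∀ t, S.P x t = med (S.P x t) (S.P w t) (S.P y t)) ∨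
      ∃ j x' p q, S.St x j x' ∧ S.P x p = j ∧
    S.P x q = j + 2 ∧ j + 2 ≤ S.P y p ∧ S.P y q ≤ j) x
    (Or.inl fun t => by unfold med; omega) ?_ y
  · rcases this with h | h
    · exfalso; apply hxy; apply S.ext; funext t
      have := h t; unfold med at this; omega
    · exact h
  · rintro u j v h (hz | hz)
    · obtain ⟨z', h1 | h1, hz'⟩ := S.medstep h hz
      · subst h1; exact Or.inl hz'
      · obtain ⟨p, q, k1, k2, k3, k4, -⟩ := S.step _ _ _ h1
        have a1 := hz' p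
        have a2 := hz' q
        have sv := S.side h1 k1 k2 v
        refine Or.inr ⟨j, z', p, q, h1, k1, k2, ?_, ?_⟩
        · rw [k1, k3] at a1; unfold med at a1
          have := S.side h1 k1 k2 y
          rw [k2, k4] at a2; unfold med at a2
          omega
        · rw [k1, k3] at a1; unfold med at a1
          have := S.side h1 k1 k2 y
          rw [k2, k4] at a2; unfold med at a2
          omega
    · exact Or.inr hz

variable [Fintype ι]

def L (x y : V) : ℕ := ∑ t, Nat.dist (S.P x t) (S.P y t)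

lemma L_step {x x' : V} {j : ℕ} {p q : ι} (h : S.St x j x') (hp : S.P x p = j)
    (hq : S.P x q = j + 2) (y : V) :
    (S.P y p ≤ j ∧ S.L x' y = S.L x y + 4) ∨ (j + 2 ≤ S.P y p ∧ S.L x' y + 4 = S.L x y) := by
  classical
  obtain ⟨k1, k2, k3⟩ := S.step' h hp hq
  have hpq : p ≠ q := by rintro rfl; omega
  have key : ∀ w : V, S.L w y = Nat.dist (S.P w p) (S.P y p) + (Nat.dist (S.P w q) (S.P y q) +
      ∑ t ∈ (Finset.univ.erase p).erase q, Nat.dist (S.P w t) (S.P y t)) := by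
    intro w
    unfold L
    rw [← Finset.add_sum_erase _ _ (Finset.mem_univ p),
      ← Finset.add_sum_erase _ _ (Finset.mem_erase.2 ⟨hpq.symm, Finset.mem_univ q⟩)]
  have e : ∑ t ∈ (Finset.univ.erase p).erase q, Nat.dist (S.P x' t) (S.P y t) =
      ∑ t ∈ (Finset.univ.erase p).erase q, Nat.dist (S.P x t) (S.P y t) := by
    apply Finset.sum_congr rfl
    intro t ht
    rw [k3 t (Finset.ne_of_mem_erase (Finset.mem_of_mem_erase ht)) (Finset.ne_of_mem_erase ht)]
  have := S.side h hp hq y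
  rw [key x', key x, e, k1, k2, hp, hq]
  unfold Nat.dist
  omega

lemma dist_L (x y : V) : 4 * S.G.dist x y = S.L x y := by
  refine dist_eq_of S.conn (fun x => S.L x y) y 4 (by norm_num) (by simp [L]) ?_ ?_ x
  · intro a b hab
    obtain ⟨j, h⟩ := (S.adj _ _).1 hab
    obtain ⟨p, q, h1, h2, -⟩ := S.step _ _ _ h
    have := S.L_step h h1 h2 y
    omega
  · intro x hx
    obtain ⟨j, x', p, q, h, h1, h2, h3, h4⟩ := S.toward hx
    have := S.L_step h h1 h2 y
    exact ⟨x', (S.adj _ _).2 ⟨j, h⟩, by omega⟩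

lemma btw_iff (u m v : V) : S.G.dist u m + S.G.dist m v = S.G.dist u v ↔
    ∀ t, Nat.dist (S.P u t) (S.P m t) + Nat.dist (S.P m t) (S.P v t) =
      Nat.dist (S.P u t) (S.P v t) := by
  have e : S.G.dist u m + S.G.dist m v = S.G.dist u v ↔ S.L u m + S.L m v = S.L u v := by
    rw [← S.dist_L, ← S.dist_L, ← S.dist_L]; omega
  rw [e]
  unfold L
  rw [← Finset.sum_add_distrib, eq_comm,
    Finset.sum_eq_sum_iff_of_le (fun t _ => Nat.dist.triangle_inequality _ _ _)]
  simp [eq_comm]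

theorem median (u v w : V) : ∃! m, S.G.dist u m + S.G.dist m v = S.G.dist u v ∧
    S.G.dist v m + S.G.dist m w = S.G.dist v w ∧ S.G.dist u m + S.G.dist m w = S.G.dist u w := by
  obtain ⟨z, hz⟩ := S.exists_med u v w
  refine ⟨z, ?_, ?_⟩
  · simp only [S.btw_iff]
    refine ⟨fun t => ?_, fun t => ?_, fun t => ?_⟩ <;> rw [hz t] <;> unfold med Nat.dist <;> omega
  · intro m hm
    simp only [S.btw_iff] at hm
    apply S.ext; funext t
    have h1 := hm.1 t
    have h2 := hm.2.1 t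
    have h3 := hm.2.2 t
    rw [hz t]
    unfold med
    unfold Nat.dist at h1 h2 h3
    omega

lemma half {x x' : V} {j : ℕ} {p q : ι} (h : S.St x j x') (hp : S.P x p = j)
    (hq : S.P x q = j + 2) (y : V) : S.P y p ≤ j ↔ S.G.dist x y < S.G.dist x' y := by
  have := S.L_step h hp hq y
  rw [← S.dist_L, ← S.dist_L] at this
  omega

theorem prime {A B : Type*} [Nontrivial A] [Nontrivial B] (H1 : SimpleGraph A)
    (H2 : SimpleGraph B) (m : ℕ) (hU : ∀ x j y, S.St x j y → j % 2 = 0 ∧ j + 2 < m)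
    (hU' : ∀ j, j % 2 = 0 → j + 2 < m → ∃ x y, S.St x j y) (φ : S.G ≃g H1 □ H2) : False := by
  have hc : (H1 □ H2).Connected := φ.connected_iff.1 S.conn
  have hd : ∀ u v, S.G.dist u v = H1.dist (φ u).1 (φ v).1 + H2.dist (φ u).2 (φ v).2 := by
    intro u v
    rw [← iso_dist φ S.conn, box_dist hc]
  have hty : ∀ x j y, S.St x j y → (φ x).2 = (φ y).2 ∨ (φ x).1 = (φ y).1 := by
    intro x j y h
    have : (H1 □ H2).Adj (φ x) (φ y) := φ.map_adj_iff.2 ((S.adj _ _).2 ⟨j, h⟩)
    rcases this with h | h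
    · exact Or.inl h.2
    · exact Or.inr h.2
  let TA : ι → Prop := fun t => ∃ x j y, S.St x j y ∧ (φ x).2 = (φ y).2 ∧ S.P x t = j
  let TB : ι → Prop := fun t => ∃ x j y, S.St x j y ∧ (φ x).1 = (φ y).1 ∧ S.P x t = j
  have hdis : ∀ t, TA t → TB t → False := by
    rintro t ⟨x, j, y, h, e, hp⟩ ⟨x', j', y', h', e', hp'⟩
    obtain ⟨p, q, h1, h2, h3, -⟩ := S.step _ _ _ h
    have : t = p := S.inj x (hp.trans h1.symm)
    subst this
    obtain ⟨p', q', k1, k2, k3, -⟩ := S.step _ _ _ h'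
    have : t = p' := S.inj x' (hp'.trans k1.symm)
    subst this
    have mix : ∀ u u' : V, ∃ z, (S.P z t ≤ j ↔ S.P u t ≤ j) ∧ (S.P z t ≤ j' ↔ S.P u' t ≤ j') := by
      intro u u'
      refine ⟨φ.symm ((φ u).1, (φ u').2), ?_, ?_⟩
      · rw [S.half h h1 h2, S.half h h1 h2, hd, hd, hd, hd, e]
        simp
      · rw [S.half h' k1 k2, S.half h' k1 k2, hd, hd, hd, hd, e']
        simp
    by_cases hj : j ≤ j'
    · obtain ⟨z, a, b⟩ := mix x y'
      omega
    · obtain ⟨z, a, b⟩ := mix y x'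
      omega
  obtain ⟨x0⟩ := S.conn.nonempty
  have both : ∀ x j y p q, S.St x j y → S.P x p = j → S.P x q = j + 2 →
      ((φ x).2 = (φ y).2 → TA p ∧ TA q) ∧ ((φ x).1 = (φ y).1 → ¬ TA p ∧ ¬ TA q) := by
    intro x j y p q h hp hq
    obtain ⟨k1, k2, -⟩ := S.step' h hp hq
    refine ⟨fun e => ⟨⟨x, j, y, h, e, hp⟩, ⟨y, j, x, S.symm _ _ _ h, e.symm, k2⟩⟩, fun e =>
      ⟨fun ha => hdis p ha ⟨x, j, y, h, e, hp⟩,
        fun ha => hdis q ha ⟨y, j, x, S.symm _ _ _ h, e.symm, k2⟩⟩⟩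
  have inv : ∀ z k, (∃ t, TA t ∧ S.P z t = k) ↔ (∃ t, TA t ∧ S.P x0 t = k) := by
    have one : ∀ a j b, S.St a j b → ∀ k, (∃ t, TA t ∧ S.P a t = k) → ∃ t, TA t ∧ S.P b t = k := by
      rintro a j b h k ⟨t, ht, hk⟩
      obtain ⟨p, q, h1, h2, h3, h4, h5⟩ := S.step _ _ _ h
      obtain ⟨b1, b2⟩ := both a j b p q h h1 h2
      by_cases e1 : t = p
      · subst e1
        rcases hty _ _ _ h with e | e
        · exact ⟨q, (b1 e).2, by omega⟩
        · exact absurd ht (b2 e).1
      by_cases e2 : t = q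
      · subst e2
        rcases hty _ _ _ h with e | e
        · exact ⟨p, (b1 e).1, by omega⟩
        · exact absurd ht (b2 e).2
      exact ⟨t, ht, by rw [h5 t e1 e2, hk]⟩
    intro z
    refine S.ind (fun z => ∀ k, (∃ t, TA t ∧ S.P z t = k) ↔ (∃ t, TA t ∧ S.P x0 t = k)) x0
      (fun k => Iff.rfl) ?_ z
    intro a j b h ih k
    rw [← ih k]
    exact ⟨one b j a (S.symm _ _ _ h) k, one a j b h k⟩
  have st : ∀ x j y, S.St x j y →
      ((φ x).2 = (φ y).2 → (∃ t, TA t ∧ S.P x0 t = j) ∧ ∃ t, TA t ∧ S.P x0 t = j + 2) ∧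
      ((φ x).1 = (φ y).1 → ¬ (∃ t, TA t ∧ S.P x0 t = j) ∧ ¬ ∃ t, TA t ∧ S.P x0 t = j + 2) := by
    intro x j y h
    obtain ⟨p, q, h1, h2, -⟩ := S.step _ _ _ h
    obtain ⟨b1, b2⟩ := both x j y p q h h1 h2
    rw [← inv x, ← inv x]
    refine ⟨fun e => ⟨⟨p, (b1 e).1, h1⟩, ⟨q, (b1 e).2, h2⟩⟩, fun e => ⟨?_, ?_⟩⟩
    · rintro ⟨t, ht, hk⟩
      have : t = p := S.inj x (hk.trans h1.symm)
      subst this; exact (b2 e).1 ht
    · rintro ⟨t, ht, hk⟩
      have : t = q := S.inj x (hk.trans h2.symm)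
      subst this; exact (b2 e).2 ht
  have all : ∀ i, 2 * i < m → ((∃ t, TA t ∧ S.P x0 t = 2 * i) ↔ ∃ t, TA t ∧ S.P x0 t = 0) := by
    intro i
    induction i with
    | zero => intro _; rfl
    | succ i ih =>
      intro hi
      rw [← ih (by omega)]
      obtain ⟨x, y, h⟩ := hU' (2 * i) (by omega) (by omega)
      obtain ⟨s1, s2⟩ := st _ _ _ h
      rw [show 2 * (i + 1) = 2 * i + 2 by ring]
      rcases hty _ _ _ h with e | e
      · exact iff_of_true (s1 e).2 (s1 e).1
      · exact iff_of_false (s2 e).2 (s2 e).1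
  by_cases h0 : ∃ t, TA t ∧ S.P x0 t = 0
  · have hall : ∀ z, (φ z).2 = (φ x0).2 := by
      refine S.ind (fun z => (φ z).2 = (φ x0).2) x0 rfl ?_
      intro a j b h ih
      rcases hty _ _ _ h with e | e
      · rw [← e, ih]
      · exfalso
        obtain ⟨u1, u2⟩ := hU _ _ _ h
        have := all (j / 2) (by omega)
        rw [show 2 * (j / 2) = j by omega] at this
        exact ((st _ _ _ h).2 e).1 (this.2 h0)
    obtain ⟨b, hb⟩ := exists_ne (φ x0).2
    have := hall (φ.symm ((φ x0).1, b))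
    simp at this
    exact hb this
  · have hall : ∀ z, (φ z).1 = (φ x0).1 := by
      refine S.ind (fun z => (φ z).1 = (φ x0).1) x0 rfl ?_
      intro a j b h ih
      rcases hty _ _ _ h with e | e
      · exfalso
        obtain ⟨u1, u2⟩ := hU _ _ _ h
        have := all (j / 2) (by omega)
        rw [show 2 * (j / 2) = j by omega] at this
        exact h0 (this.1 ((st _ _ _ h).1 e).1)
      · rw [← e, ih]
    obtain ⟨b, hb⟩ := exists_ne (φ x0).1
    have := hall (φ.symm (b, (φ x0).2))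
    simp at this
    exact hb this

end Sys

end Pool.Agent.H.MP_e319d1_co
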