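import Pool.Agent.H.MP_e319d1_co.Lam

namespace Pool.Agent.H.MP_e319d1_co

structure Tok (V W : Type*) [Group W] where
  G : SimpleGraph V
  m : ℕ
  T : V → ℕ → W
  St : V → ℕ → V → Prop
  adj : ∀ x y, G.Adj x y ↔ ∃ j, St x j y
  symm : ∀ x j y, St x j y → St y j x
  conn : G.Connected
  lt : ∀ x j y, St x j y → j + 2 < m
  sw : ∀ x j y, St x j y → T y j = T x (j + 2) ∧ T y (j + 2) = T x j ∧
    ∀ k, k ≠ j → k ≠ j + 2 → T y k = T x k
  rel : ∀ x j y, St x j y → T x (j + 2) = T x (j + 1) * T x j * T x (j + 1) ∧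
    T x j * T x (j + 1) * T x j = T x (j + 1) * T x j * T x (j + 1)
  invol : ∀ x k, T x k * T x k = 1
  act : ∀ x j, j + 2 < m → T x (j + 2) = T x (j + 1) * T x j * T x (j + 1) → ∃ y, St x j y
  injT : ∀ x k k', k < m → k' < m → T x k = T x k' → k = k'
  extT : ∀ x y, (∀ k, k < m → T x k = T y k) → x = y

inductive Pth {V : Type*} (St : V → ℕ → V → Prop) : V → List ℕ → V → Prop
  | nil (x : V) : Pth St x [] x
  | cons {x y z : V} {j : ℕ} {cs : List ℕ} : St x j y → Pth St y cs z → Pth St x (j :: cs) z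

lemma Pth.split {V : Type*} {St : V → ℕ → V → Prop} {x y : V} {cs : List ℕ} (h : Pth St x cs y)
    {c : ℕ} (hc : c ∈ cs) : ∃ z z' c1 c2, Pth St x c1 z ∧ St z c z' ∧ Pth St z' c2 y ∧
      c1.length + c2.length + 1 = cs.length := by
  induction h with
  | nil => simp at hc
  | @cons x y z j cs h1 h2 ih =>
    rcases List.mem_cons.1 hc with rfl | hc
    · exact ⟨x, y, [], cs, Pth.nil x, h1, h2, by simp⟩
    · obtain ⟨z, z', c1, c2, a, b, c, d⟩ := ih hc
      exact ⟨z, z', j :: c1, c2, Pth.cons h1 a, b, c, by simp; omega⟩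

lemma Pth.snoc {V : Type*} {St : V → ℕ → V → Prop} {x y z : V} {cs : List ℕ} {c : ℕ}
    (h : Pth St x cs y) (h' : St y c z) : Pth St x (cs ++ [c]) z := by
  induction h with
  | nil => exact Pth.cons h' (Pth.nil _)
  | cons h1 _ ih => exact Pth.cons h1 (ih h')

namespace Tok
variable {V W : Type*} [Group W] (S : Tok V W)

lemma ind (Q : V → Prop) (x : V) (hx : Q x) (hs : ∀ a j b, S.St a j b → Q a → Q b) (z : V) :
    Q z := by
  have := (SimpleGraph.reachable_iff_reflTransGen x z).1 (S.conn.preconnected x z)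
  induction this with
  | refl => exact hx
  | tail _ h ih =>
    obtain ⟨j, hj⟩ := (S.adj _ _).1 h
    exact hs _ j _ hj ih

lemma pth (x y : V) : ∃ cs, Pth S.St x cs y :=
  S.ind (fun y => ∃ cs, Pth S.St x cs y) x ⟨[], Pth.nil x⟩
    (fun _ _ _ h ⟨_, h'⟩ => ⟨_, h'.snoc h⟩) y

lemma move (x y : V) (k : ℕ) (hk : k < S.m) :
    ∃ k', k' < S.m ∧ k' % 2 = k % 2 ∧ S.T y k' = S.T x k := by
  refine S.ind (fun y => ∃ k', k' < S.m ∧ k' % 2 = k % 2 ∧ S.T y k' = S.T x k) x
    ⟨k, hk, rfl, rfl⟩ ?_ y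
  rintro a j b h ⟨k', h1, h2, h3⟩
  obtain ⟨s1, s2, s3⟩ := S.sw _ _ _ h
  have := S.lt _ _ _ h
  by_cases e1 : k' = j
  · subst e1; exact ⟨k' + 2, this, by omega, s2.trans h3⟩
  by_cases e2 : k' = j + 2
  · subst e2; exact ⟨j, by omega, by omega, s1.trans h3⟩
  exact ⟨k', h1, h2, (s3 k' e1 e2).trans h3⟩

lemma par {x y : V} {k k' : ℕ} (hk : k < S.m) (hk' : k' < S.m) (h : S.T y k' = S.T x k) :
    k' % 2 = k % 2 := by
  obtain ⟨l, h1, h2, h3⟩ := S.move x y k hk
  have := S.injT y l k' h1 hk' (h3.trans h.symm)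
  omega

lemma keep {x y : V} {cs : List ℕ} (h : Pth S.St x cs y) (k : ℕ) (h1 : k ∉ cs)
    (h2 : ∀ c ∈ cs, k ≠ c + 2) : S.T y k = S.T x k := by
  induction h with
  | nil => rfl
  | @cons x y z j cs a _ ih =>
    rw [ih (fun h => h1 (List.mem_cons_of_mem _ h)) fun c hc => h2 c (List.mem_cons_of_mem _ hc)]
    exact (S.sw _ _ _ a).2.2 k (by rintro rfl; exact h1 List.mem_cons_self)
      (h2 j List.mem_cons_self)

lemma na_aux (n : ℕ) : ∀ cs x y, cs.length = n → Pth S.St x cs y → ∀ j j' x' y',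
    (j' = j + 1 ∨ j = j' + 1) → S.St x j x' → S.St y j' y' → False := by
  induction n using Nat.strong_induction_on with
  | _ n ih =>
    intro cs x y hn hp j j' x' y' hj hx hy
    have f1 : ∀ c ∈ cs, ¬ (c = j + 1 ∨ j = c + 1) := by
      intro c hc hcj
      obtain ⟨z, z', c1, c2, a, b, -, d⟩ := hp.split hc
      exact ih c1.length (by omega) c1 x z rfl a j c x' z' hcj hx b
    have f2 : ∀ c ∈ cs, ¬ (j' = c + 1 ∨ c = j' + 1) := by
      intro c hc hcj
      obtain ⟨z, z', c1, c2, -, b, a, d⟩ := hp.split hc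
      exact ih c2.length (by omega) c2 z' y rfl a c j' z y' hcj (S.symm _ _ _ b) hy
    have main : ∀ (u v u' v' : V) (i : ℕ), S.St u i u' → S.St v (i + 1) v' →
        S.T v (i + 1) = S.T u (i + 1) → S.T v (i + 2) = S.T u (i + 2) → False := by
      intro u v u' v' i hu hv e1 e2
      obtain ⟨r1, r2⟩ := S.rel _ _ _ hu
      obtain ⟨r3, -⟩ := S.rel _ _ _ hv
      have l1 := S.lt _ _ _ hu
      have l2 := S.lt _ _ _ hv
      have i1 := S.invol u (i + 1)
      have i0 := S.invol u i
      have : S.T v (i + 1 + 2) = S.T u i := by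
        rw [r3, show i + 1 + 1 = i + 2 by ring, e1, e2, r1]
        generalize S.T u (i + 1) = b at *
        generalize S.T u i = a at *
        calc b * a * b * b * (b * a * b) = b * a * (b * b) * (b * a * b) := by group
          _ = b * a * (a * b * a) := by rw [i1, ← r2]; group
          _ = b * (a * a) * b * a := by group
          _ = a := by rw [i0, mul_one, i1, one_mul]
      have := S.par (by omega) l2 this
      omega
    rcases hj with rfl | rfl
    · refine main x y x' y' j hx hy (S.keep hp _ ?_ ?_) (S.keep hp _ ?_ ?_)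
      · intro h; exact f1 _ h (Or.inl rfl)
      · intro c hc h; exact f1 c hc (by omega)
      · intro h; exact f2 _ h (by omega)
      · intro c hc h; exact f2 c hc (by omega)
    · refine main y x y' x' j' hy hx (S.keep hp _ ?_ ?_).symm (S.keep hp _ ?_ ?_).symm
      · intro h; exact f2 _ h (by omega)
      · intro c hc h; exact f2 c hc (by omega)
      · intro h; exact f1 _ h (by omega)
      · intro c hc h; exact f1 c hc (by omega)

lemma na (x : V) (j : ℕ) (y x' y' : V) (h : S.St x j y) (h' : S.St x' (j + 1) y') : False := by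
  obtain ⟨cs, hp⟩ := S.pth x x'
  exact S.na_aux _ cs x x' rfl hp j (j + 1) y y' (Or.inl rfl) h h'

lemma delta {x y : V} {j : ℕ} (h : S.St x j y) (z : V) : S.T z (j + 1) = S.T x (j + 1) := by
  refine S.ind (fun z => S.T z (j + 1) = S.T x (j + 1)) x rfl ?_ z
  intro a i b hab ih
  rw [← ih]
  refine (S.sw _ _ _ hab).2.2 _ ?_ ?_
  · rintro rfl; exact S.na _ _ _ _ _ h hab
  · intro e
    have : j = i + 1 := by omega
    subst this
    exact S.na _ _ _ _ _ hab h

noncomputable def pos (x0 y : V) (a : Fin S.m) : ℕ := (S.move x0 y a a.2).choose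

lemma pos_iff (x0 y : V) (a : Fin S.m) (k : ℕ) :
    S.pos x0 y a = k ↔ k < S.m ∧ S.T y k = S.T x0 a := by
  obtain ⟨h1, -, h3⟩ := (S.move x0 y a a.2).choose_spec
  constructor
  · rintro rfl; exact ⟨h1, h3⟩
  · rintro ⟨a1, a2⟩
    exact S.injT y _ _ h1 a1 (h3.trans a2.symm)

lemma pos_surj (x0 y : V) (k : ℕ) (hk : k < S.m) : ∃ a, S.pos x0 y a = k := by
  obtain ⟨l, h1, -, h3⟩ := S.move y x0 k hk
  exact ⟨⟨l, h1⟩, (S.pos_iff _ _ _ _).2 ⟨hk, h3.symm⟩⟩

lemma pos_inj (x0 y : V) : Function.Injective (S.pos x0 y) := by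
  intro a b h
  have h1 := (S.pos_iff x0 y a _).1 rfl
  have h2 := (S.pos_iff x0 y b _).1 h.symm
  exact Fin.ext (S.injT x0 _ _ a.2 b.2 (h1.2.symm.trans h2.2))

noncomputable def toSys (x0 : V) : Sys V (Fin S.m) where
  G := S.G
  P := S.pos x0
  St := S.St
  adj := S.adj
  inj := S.pos_inj x0
  ext := by
    intro x y h
    apply S.extT
    intro k hk
    obtain ⟨a, ha⟩ := S.pos_surj x0 x k hk
    have hb : S.pos x0 y a = k := by rw [← h]; exact ha
    exact ((S.pos_iff _ _ _ _).1 ha).2.trans ((S.pos_iff _ _ _ _).1 hb).2.symm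
  step := by
    intro x j y h
    have hl := S.lt _ _ _ h
    obtain ⟨s1, s2, s3⟩ := S.sw _ _ _ h
    obtain ⟨p, hp⟩ := S.pos_surj x0 x j (by omega)
    obtain ⟨q, hq⟩ := S.pos_surj x0 x (j + 2) hl
    refine ⟨p, q, hp, hq, ?_, ?_, fun a ha hb => ?_⟩
    · exact (S.pos_iff _ _ _ _).2 ⟨hl, s2.trans ((S.pos_iff _ _ _ _).1 hp).2⟩
    · exact (S.pos_iff _ _ _ _).2 ⟨by omega, s1.trans ((S.pos_iff _ _ _ _).1 hq).2⟩
    · obtain ⟨a1, a2⟩ := (S.pos_iff x0 x a _).1 rfl
      refine (S.pos_iff _ _ _ _).2 ⟨a1, (s3 _ ?_ ?_).trans a2⟩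
      · intro e; exact ha (S.pos_inj x0 x (e.trans hp.symm))
      · intro e; exact hb (S.pos_inj x0 x (e.trans hq.symm))
  symm := S.symm
  conn := S.conn
  K := by
    intro x j y z p q h h1 h2 h3 h4
    refine S.act z j (S.lt _ _ _ h) ?_
    rw [S.delta h z, ((S.pos_iff _ _ _ _).1 h3).2, ((S.pos_iff _ _ _ _).1 h4).2,
      ← ((S.pos_iff _ _ _ _).1 h1).2, ← ((S.pos_iff _ _ _ _).1 h2).2]
    exact (S.rel _ _ _ h).1
  F := by
    intro x j y x' y' p q q' h h' h1 h2 h3 h4
    apply Fin.ext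
    apply S.injT x0 _ _ q.2 q'.2
    rw [← ((S.pos_iff _ _ _ _).1 h2).2, ← ((S.pos_iff _ _ _ _).1 h4).2, (S.rel _ _ _ h).1,
      (S.rel _ _ _ h').1, S.delta h x', ((S.pos_iff _ _ _ _).1 h1).2,
      ((S.pos_iff _ _ _ _).1 h3).2]

/-- uniqueness of the swapped pair, from a local no-triangle hypothesis -/
lemma uniq (htri : ∀ x j y x' y' cs, S.St x j y → S.St x' j y' → Pth S.St x cs x' → j ∉ cs →
      S.T x j ≠ S.T x' j → S.T x j * S.T x' j * S.T x j ≠ S.T x' j * S.T x j * S.T x' j)
    (j : ℕ) : ∀ x y x' y', S.St x j y → S.St x' j y' →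
      S.T x' j = S.T x j ∨ S.T x' j = S.T x (j + 2) := by
  induction j using Nat.strong_induction_on with
  | _ j ih =>
    have seg : ∀ x y x' y' cs, S.St x j y → S.St x' j y' → Pth S.St x cs x' → j ∉ cs →
        S.T x' j = S.T x j := by
      intro x y x' y' cs h h' hp hj
      by_contra hne
      have hex : ∃ c ∈ cs, j = c + 2 := by
        by_contra hc
        push Not at hc
        exact hne (S.keep hp j hj hc)
      obtain ⟨i, hi, rfl⟩ := hex
      obtain ⟨u, u', -, -, -, hu, -⟩ := hp.split hi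
      have full : ∀ a b, S.St a i b → (S.T a i = S.T u i ∧ S.T a (i + 2) = S.T u (i + 2)) ∨
          (S.T a i = S.T u (i + 2) ∧ S.T a (i + 2) = S.T u i) := by
        intro a b hab
        have d := S.delta hu a
        have r1 := (S.rel _ _ _ hab).1
        have r2 := (S.rel _ _ _ hu).1
        rcases ih i (by omega) u u' a b hu hab with e | e
        · exact Or.inl ⟨e, by rw [r1, r2, d, e]⟩
        · refine Or.inr ⟨e, ?_⟩
          rw [r1, d, e, r2]
          have := S.invol u (i + 1)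
          generalize S.T u (i + 1) = b at *
          calc b * (b * S.T u i * b) * b = (b * b) * S.T u i * (b * b) := by group
            _ = _ := by rw [this]; group
      have inv : ∀ a c ds, Pth S.St a ds c → i + 2 ∉ ds → S.T c (i + 2) = S.T a (i + 2) ∨
          ((S.T a (i + 2) = S.T u i ∨ S.T a (i + 2) = S.T u (i + 2)) ∧
            (S.T c (i + 2) = S.T u i ∨ S.T c (i + 2) = S.T u (i + 2))) := by
        intro a c ds hd
        induction hd with
        | nil => intro _; exact Or.inl rfl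
        | @cons a b c k ds h1 _ ih2 =>
          intro hn
          have := ih2 fun h => hn (List.mem_cons_of_mem _ h)
          obtain ⟨s1, s2, s3⟩ := S.sw _ _ _ h1
          by_cases e : k = i
          · subst e
            have f := full a b h1
            rw [s2] at this
            right
            rcases f with ⟨f1, f2⟩ | ⟨f1, f2⟩ <;> rcases this with t | ⟨-, t⟩
            · exact ⟨Or.inr f2, Or.inl (t.trans f1)⟩
            · exact ⟨Or.inr f2, t⟩
            · exact ⟨Or.inl f2, Or.inr (t.trans f1)⟩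
            · exact ⟨Or.inl f2, t⟩
          · rw [s3 (i + 2) (by rintro rfl; exact hn List.mem_cons_self) (by omega)] at this
            exact this
      have hb : S.T u i * S.T u (i + 2) * S.T u i = S.T u (i + 2) * S.T u i * S.T u (i + 2) := by
        obtain ⟨r1, r2⟩ := S.rel _ _ _ hu
        rw [r1, ← r2]
        have i0 := S.invol u i
        generalize S.T u (i + 1) = b at *
        generalize S.T u i = a at *
        calc a * (a * b * a) * a = (a * a) * b * (a * a) := by group
          _ = b := by rw [i0]; group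
          _ = a * (a * b * a) * a := by
            rw [show a * (a * b * a) * a = (a * a) * b * (a * a) by group, i0]; group
          _ = a * (b * a * b) * a := by rw [r2]
          _ = a * b * (a * a) * a * b * a := by rw [i0]; group
          _ = _ := by group
      rcases inv x x' cs hp hj with t | ⟨t1, t2⟩
      · exact hne t
      · refine htri x (i + 2) y x' y' cs h h' hp hj (Ne.symm hne) ?_
        rcases t1 with t1 | t1 <;> rcases t2 with t2 | t2
        · exact absurd (t2.trans t1.symm) hne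
        · rw [t1, t2]; exact hb
        · rw [t1, t2]; exact hb.symm
        · exact absurd (t2.trans t1.symm) hne
    intro x y x' y' h h'
    have := S.ind (fun z => ∃ w w' cs, S.St w j w' ∧
      ((S.T w j = S.T x j ∧ S.T w (j + 2) = S.T x (j + 2)) ∨
        (S.T w j = S.T x (j + 2) ∧ S.T w (j + 2) = S.T x j)) ∧ Pth S.St w cs z ∧ j ∉ cs) x
      ⟨x, y, [], h, Or.inl ⟨rfl, rfl⟩, Pth.nil x, by simp⟩ ?_ x'
    · obtain ⟨w, w', cs, h1, h2, h3, h4⟩ := this
      rw [seg w w' x' y' cs h1 h' h3 h4]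
      rcases h2 with h2 | h2
      · exact Or.inl h2.1
      · exact Or.inr h2.1
    · rintro a i b hab ⟨w, w', cs, h1, h2, h3, h4⟩
      by_cases e : i = j
      · subst e
        have e1 := seg w w' a b cs h1 hab h3 h4
        have e2 : S.T a (i + 2) = S.T w (i + 2) := by
          rw [(S.rel _ _ _ hab).1, (S.rel _ _ _ h1).1, e1, S.delta h1 a]
        obtain ⟨s1, s2, -⟩ := S.sw _ _ _ hab
        refine ⟨b, a, [], S.symm _ _ _ hab, ?_, Pth.nil b, by simp⟩
        rw [s1, s2, e1, e2]
        tauto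
      · exact ⟨w, w', cs ++ [i], h1, h2, h3.snoc hab, by simp [h4, Ne.symm e]⟩

end Tok

end Pool.Agent.H.MP_e319d1_co
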