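import Pool.Agent.H.MP_e319d1_co.Cox

namespace Pool.Agent.H.MP_e319d1_co

open CoxeterSystem

variable {B W : Type*} [Group W] {M : CoxeterMatrix B} (cs : CoxeterSystem M W)

lemma BraidAt.far {α β : List B} {i j : ℕ} (h : BraidAt M α i β) (h1 : i ≠ j) (h2 : i ≠ j + 1)
    (h3 : j ≠ i + 1) :
    cs.wordProd (β.take (j + 1)) = cs.wordProd (α.take (j + 1)) ∧ β[j + 1]? = α[j + 1]? := by
  obtain ⟨l, r, s, t, hm, rfl, rfl, rfl⟩ := h
  by_cases hlt : j < l.length
  · constructor
    · rw [List.append_assoc, List.append_assoc, List.take_append_of_le_length (by omega),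
        List.take_append_of_le_length (by omega)]
    · rw [List.append_assoc, List.append_assoc, List.getElem?_append_left (by omega),
        List.getElem?_append_left (by omega)]
  · have e1 : (l ++ [s, t, s]).length = l.length + 3 := by simp
    have e2 : (l ++ [t, s, t]).length = l.length + 3 := by simp
    constructor
    · rw [List.take_append, List.take_append (l₁ := l ++ [s, t, s]),
        List.take_of_length_le (by omega), List.take_of_length_le (l := l ++ [s, t, s]) (by omega),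
        e1, e2]
      exact BraidAt.prod cs ⟨l, _, s, t, hm, rfl, rfl, rfl⟩
    · rw [List.getElem?_append_right (by omega),
        List.getElem?_append_right (l₁ := l ++ [s, t, s]) (by omega), e1, e2]

lemma BraidAt.loc {α β : List B} {j : ℕ} (h : BraidAt M α j β) : ∃ a b, M a b = 3 ∧
    α[j + 1]? = some b ∧ Pool.Agent.H.MP_e319d1_co.tok cs α j =
      cs.wordProd (α.take (j + 1)) * cs.simple a * (cs.wordProd (α.take (j + 1)))⁻¹ := by
  obtain ⟨l, r, s, t, hm, rfl, rfl, rfl⟩ := h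
  refine ⟨s, t, hm, by simp, ?_⟩
  rw [(tok3 cs l r s t s).1]
  have : (l ++ [s, t, s] ++ r).take (l.length + 1) = l ++ [s] := by
    rw [List.append_assoc, List.take_append]
    simp
  rw [this, wordProd_append]
  simp [mul_assoc]

lemma uniq (hsl : ∀ s t, s ≠ t → M s t = 2 ∨ M s t = 3)
    (htf : ¬ ∃ s t u, M s t = 3 ∧ M t u = 3 ∧ M s u = 3) {α : List B} (hα : cs.IsReduced α)
    (j : ℕ) (x y x' y' : Cls M α) (h : BraidAt M x.1 j y.1) (h' : BraidAt M x'.1 j y'.1) :
    tok cs x'.1 j = tok cs x.1 j ∨ tok cs x'.1 j = tok cs x.1 (j + 2) := by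
  refine (toTok cs hsl hα).uniq ?_ j x y x' y' h h'
  intro x j y x' y' ds h h' hp hj hne hbr
  have key : ∀ (a c : Cls M α) ds, Pth (toTok cs hsl hα).St a ds c → j ∉ ds →
      cs.wordProd (c.1.take (j + 1)) = cs.wordProd (a.1.take (j + 1)) ∧
        c.1[j + 1]? = a.1[j + 1]? := by
    intro a c ds hd
    induction hd with
    | nil => intro _; exact ⟨rfl, rfl⟩
    | @cons a b c i ds h1 _ ih =>
      intro hn
      obtain ⟨i1, i2⟩ := ih fun h => hn (List.mem_cons_of_mem _ h)
      obtain ⟨f1, f2⟩ := BraidAt.far cs (j := j) h1 (by rintro rfl; exact hn List.mem_cons_self)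
        (by rintro rfl; exact (toTok cs hsl hα).na _ _ _ _ _ h h1)
        (by rintro rfl; exact (toTok cs hsl hα).na _ _ _ _ _ h1 h)
      exact ⟨i1.trans f1, i2.trans f2⟩
  obtain ⟨k1, k2⟩ := key x x' ds hp hj
  obtain ⟨a, b, m1, l1, t1⟩ := BraidAt.loc cs h
  obtain ⟨c, b', m2, l2, t2⟩ := BraidAt.loc cs h'
  have : b' = b := by rw [k2, l1] at l2; exact (Option.some.inj l2).symm
  subst this
  change tok cs x.1 j ≠ tok cs x'.1 j at hne
  change tok cs x.1 j * tok cs x'.1 j * tok cs x.1 j =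
    tok cs x'.1 j * tok cs x.1 j * tok cs x'.1 j at hbr
  rw [t1, t2, k1] at hne hbr
  generalize cs.wordProd (List.take (j + 1) x.1) = v at hne hbr
  have hac : a ≠ c := by rintro rfl; exact hne rfl
  rcases hsl a c hac with h2 | h3
  · apply hne
    have h1 := cs.simple_mul_simple_pow a c
    rw [h2, pow_two] at h1
    have ha := cs.simple_mul_simple_self a
    have hc := cs.simple_mul_simple_self c
    generalize cs.simple a = p at *
    generalize cs.simple c = q at *
    have e1 : p * q * p = q := by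
      calc p * q * p = (p * q * (p * q)) * q⁻¹ := by group
        _ = q := by rw [h1, one_mul, inv_eq_of_mul_eq_one_right hc]
    have e2 : q * p * q = p := by
      calc q * p * q = p⁻¹ * (p * q * (p * q)) := by group
        _ = p := by rw [h1, mul_one, inv_eq_of_mul_eq_one_right ha]
    calc v * p * v⁻¹ = v * (q * p * q) * v⁻¹ := by rw [e2]
      _ = v * q * v⁻¹ * (v * p * v⁻¹) * (v * q * v⁻¹) := by group
      _ = v * (p * q * p) * v⁻¹ := by rw [← hbr]; group
      _ = _ := by rw [e1]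
  · exact htf ⟨a, b', c, m1, by rw [M.symmetric, m2], h3⟩

theorem lamCox (hsl : ∀ s t, s ≠ t → M s t = 2 ∨ M s t = 3)
    (htf : ¬ ∃ s t u, M s t = 3 ∧ M t u = 3 ∧ M s u = 3) {α : List B} (hα : cs.IsReduced α) :
    ∃ U : Finset ℕ, (U : Set ℕ) = shadows M α ∧ ∃ σ : Cls M α → ℕ → Bool,
      (∀ x y, (braidGraph M α).dist x y = (U.filter fun j => σ x j ≠ σ y j).card) ∧
      ∃ u v, ∀ j ∈ U, σ u j ≠ σ v j := by
  classical
  let S := toTok cs hsl hα
  let x0 : Cls M α := ⟨α, Relation.ReflTransGen.refl⟩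
  have hU : ∀ j, j ∈ (Finset.range α.length).filter (· ∈ shadows M α) ↔
      ∃ x y : Cls M α, BraidAt M x.1 j y.1 := by
    intro j
    rw [Finset.mem_filter, Finset.mem_range]
    constructor
    · rintro ⟨-, β, hβ, γ, h⟩
      exact ⟨⟨β, hβ⟩, ⟨γ, Relation.ReflTransGen.tail hβ ⟨j, h⟩⟩, h⟩
    · rintro ⟨x, y, h⟩
      have := S.lt x j y h
      exact ⟨lt_of_le_of_lt (by omega) this, x.1, x.2, y.1, h⟩
  refine ⟨(Finset.range α.length).filter (· ∈ shadows M α), ?_, ?_⟩
  · ext j
    rw [Finset.mem_coe, hU]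
    constructor
    · rintro ⟨x, y, h⟩; exact ⟨x.1, x.2, y.1, h⟩
    · rintro ⟨β, hβ, γ, h⟩
      exact ⟨⟨β, hβ⟩, ⟨γ, Relation.ReflTransGen.tail hβ ⟨j, h⟩⟩, h⟩
  · refine (S.toSys x0).lam ?_ S.na _ hU
    intro x j y x' y' p h h' hp
    have hl := S.lt _ _ _ h'
    have hp' := ((S.pos_iff _ _ _ _).1 hp).2
    rcases uniq cs hsl htf hα j x' y' x y h' h with e | e
    · exact Or.inl ((S.pos_iff _ _ _ _).2 ⟨by omega, e.symm.trans hp'⟩)
    · exact Or.inr ((S.pos_iff _ _ _ _).2 ⟨hl, e.symm.trans hp'⟩)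

end Pool.Agent.H.MP_e319d1_co
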